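import Pool.Agent.Helper53.PF.St

set_option linter.style.longLine false

namespace PF.Helper10

open Polynomial

theorem lcf_rat (a b c : ℚ) (h : a ^ 3 + b ^ 3 + c ^ 3 = 0) : a = 0 ∨ b = 0 ∨ c = 0 := by
  by_contra hcon
  push Not at hcon
  obtain ⟨ha, hb, hc⟩ := hcon
  have h1 := (fermatLastTheoremFor_iff_rat (n := 3)).1 fermatLastTheoremThree a b (-c) ha hb
    (neg_ne_zero.2 hc)
  apply h1
  linear_combination h

theorem lcf_opp (a b : ℚ) (h : a ^ 3 + b ^ 3 = 0) : a + b = 0 := by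
  have h1 : (a + b) * (a ^ 2 - a * b + b ^ 2) = 0 := by linear_combination h
  rcases mul_eq_zero.1 h1 with h2 | h2
  · exact h2
  · have ha : a = 0 := by nlinarith [sq_nonneg (a - 2 * b), sq_nonneg a, sq_nonneg b]
    have hb : b = 0 := by nlinarith [sq_nonneg (a - 2 * b), sq_nonneg a, sq_nonneg b]
    rw [ha, hb, add_zero]

theorem lcf_lt {p : ℚ[X]} {D : ℕ} (hD : 0 < D) (h1 : p.natDegree ≤ D) (h2 : p.coeff D = 0) :
    p.natDegree < D := by
  refine lt_of_le_of_ne h1 ?_
  rintro rfl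
  have h3 : p = 0 := leadingCoeff_eq_zero.1 h2
  rw [h3, natDegree_zero] at hD
  exact lt_irrefl _ hD

theorem lcf_case {x y z : ℚ[X]} {D : ℕ} (hD : 0 < D) (hx : x.natDegree ≤ D) (hy : y.natDegree ≤ D)
    (hz : z.natDegree ≤ D) (h : x.coeff D ^ 3 + y.coeff D ^ 3 + z.coeff D ^ 3 = 0)
    (hz0 : z.coeff D = 0) (hne : ¬ (x.coeff D = 0 ∧ y.coeff D = 0)) :
    0 < x.natDegree ∧ y.natDegree = x.natDegree ∧
    z.natDegree < x.natDegree ∧ (x + y).natDegree < x.natDegree := by
  have h1 : x.coeff D + y.coeff D = 0 := by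
    apply lcf_opp
    rw [hz0] at h
    linear_combination h
  have hx0 : x.coeff D ≠ 0 := by
    intro h2
    apply hne
    refine ⟨h2, ?_⟩
    rw [h2, zero_add] at h1
    exact h1
  have hy0 : y.coeff D ≠ 0 := by
    intro h2
    apply hx0
    rw [h2, add_zero] at h1
    exact h1
  have hxD : x.natDegree = D := le_antisymm hx (le_natDegree_of_ne_zero hx0)
  have hyD : y.natDegree = D := le_antisymm hy (le_natDegree_of_ne_zero hy0)
  rw [hxD, hyD]
  refine ⟨hD, rfl, lcf_lt hD hz hz0, lcf_lt hD ?_ ?_⟩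
  · exact (natDegree_add_le x y).trans (max_le hx hy)
  · rw [coeff_add, h1]

theorem holds_LCF : PF.StLCF := by
  intro n x y z h hdeg P
  obtain ⟨D, hx, hy, hz, hD, hne⟩ : ∃ D : ℕ, x.natDegree ≤ D ∧ y.natDegree ≤ D ∧ z.natDegree ≤ D ∧
      0 < D ∧ ¬ (x.coeff D = 0 ∧ y.coeff D = 0 ∧ z.coeff D = 0) := by
    refine ⟨max x.natDegree (max y.natDegree z.natDegree), le_max_left _ _,
      (le_max_left _ _).trans (le_max_right _ _), (le_max_right _ _).trans (le_max_right _ _), ?_, ?_⟩
    · by_contra hcon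
      apply hdeg
      omega
    · rintro ⟨h1, h2, h3⟩
      have hD : 0 < max x.natDegree (max y.natDegree z.natDegree) := by
        by_contra hcon
        apply hdeg
        omega
      have h4 := lcf_lt hD (le_max_left _ _) h1
      have h5 := lcf_lt hD ((le_max_left _ _).trans (le_max_right _ _)) h2
      have h6 := lcf_lt hD ((le_max_right _ _).trans (le_max_right _ _)) h3
      omega
  have hcoef : x.coeff D ^ 3 + y.coeff D ^ 3 + z.coeff D ^ 3 = 0 := by
    have h1 := congrArg (fun p : ℚ[X] => p.coeff (3 * D)) h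
    simp only [coeff_add] at h1
    rw [coeff_pow_of_natDegree_le hx, coeff_pow_of_natDegree_le hy, coeff_pow_of_natDegree_le hz,
      coeff_C_of_ne_zero (by omega)] at h1
    exact h1
  rcases lcf_rat _ _ _ hcoef with h0 | h0 | h0
  · right; right
    refine lcf_case hD hy hz hx ?_ h0 (fun h => hne ⟨h0, h.1, h.2⟩)
    linear_combination hcoef
  · right; left
    refine lcf_case hD hx hz hy ?_ h0 (fun h => hne ⟨h.1, h0, h.2⟩)
    linear_combination hcoef
  · left
    exact lcf_case hD hx hy hz hcoef h0 (fun h => hne ⟨h.1, h.2, h0⟩)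

end PF.Helper10
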